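import Pool.Agent.TH346.CG.Defs2

/-!
# A good scale (job GSD-SCALE of helper346)
-/

set_option autoImplicit false

open Finset
open scoped Pointwise

namespace Pool.Agent.TH391.CG

open Pool.Agent.TH346.CG

section ks

variable {Γ : Type} [AddCommGroup Γ] [DecidableEq Γ]

theorem ks_zero (D : Finset Γ) : ks 0 D = {0} := rfl

theorem ks_succ (k : ℕ) (D : Finset Γ) : ks (k + 1) D = ks k D + D := rfl

theorem ks_eq_nsmul (k : ℕ) (D : Finset Γ) : ks k D = nsmulRec k D := by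
  induction k with
  | zero => rfl
  | succ k ih =>
    show ks k D + D = nsmulRec k D + D
    rw [ih]

theorem ks_add (a b : ℕ) (D : Finset Γ) : ks (a + b) D = ks a D + ks b D := by
  induction b with
  | zero => rw [add_zero, ks_zero, Finset.singleton_zero, add_zero]
  | succ b ih => rw [← add_assoc, ks_succ, ih, ks_succ, add_assoc]

theorem ks_one (D : Finset Γ) : ks 1 D = D := by
  rw [ks_succ, ks_zero, Finset.singleton_zero, zero_add]

theorem ks_mono {D : Finset Γ} (h0 : (0 : Γ) ∈ D) {a b : ℕ} (h : a ≤ b) : ks a D ⊆ ks b D := by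
  induction h with
  | refl => exact Subset.rfl
  | step _ ih =>
    refine ih.trans fun x hx => ?_
    have := Finset.add_mem_add hx h0
    rwa [add_zero] at this

theorem zero_mem_ks {D : Finset Γ} (h0 : (0 : Γ) ∈ D) (k : ℕ) : (0 : Γ) ∈ ks k D :=
  ks_mono h0 (Nat.zero_le k) (by rw [ks_zero]; exact mem_singleton_self _)

theorem ks_neg {D : Finset Γ} (hD : -D = D) {k : ℕ} {x : Γ} (hx : x ∈ ks k D) : -x ∈ ks k D := by
  induction k generalizing x with
  | zero =>
    rw [ks_zero, mem_singleton] at hx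
    rw [hx, neg_zero, ks_zero]
    exact mem_singleton_self _
  | succ k ih =>
    rw [ks_succ, mem_add] at hx
    obtain ⟨y, hy, z, hz, rfl⟩ := hx
    rw [neg_add, ks_succ]
    refine Finset.add_mem_add (ih hy) ?_
    rw [← hD, Finset.mem_neg']
    simpa using hz

theorem ks_sub {E T : Finset Γ} {s : ℕ} (hE : E ⊆ ks s T) (k : ℕ) : ks k E ⊆ ks (s * k) T := by
  induction k with
  | zero => rw [mul_zero, ks_zero, ks_zero]
  | succ k ih =>
    rw [ks_succ, mul_add, mul_one, ks_add]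
    exact Finset.add_subset_add ih hE

theorem card_ks_le {S : Finset Γ} (hS : S.Nonempty) {a b : ℕ} (h : a ≤ b) :
    (ks a S).card ≤ (ks b S).card := by
  induction h with
  | refl => exact le_rfl
  | step _ ih => exact ih.trans (Finset.card_le_card_add_right hS)

/-- the sizes of the sumsets of `S` -/
theorem card_ks_S {S : Finset Γ} (hne : S.Nonempty) (hS : -S = S) {K : ℕ} (hK1 : 1 ≤ K)
    (hK : (S + S + S).card ≤ K * S.card) (m : ℕ) : (ks m S).card ≤ K ^ m * S.card := by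
  have h3 : ks 3 S = S + S + S := by
    show (((({0} : Finset Γ) + S) + S) + S) = _
    rw [Finset.singleton_zero, zero_add]
  have hS1 : 1 ≤ S.card := hne.card_pos
  match m with
  | 0 =>
    rw [ks_zero, card_singleton, pow_zero, one_mul]
    exact hS1
  | 1 =>
    rw [ks_one, pow_one]
    exact Nat.le_mul_of_pos_left _ hK1
  | 2 =>
    have h := card_ks_le hne (show 2 ≤ 3 by norm_num)
    rw [h3] at h
    refine h.trans (hK.trans (Nat.mul_le_mul_right _ ?_))
    calc K = K ^ 1 := (pow_one K).symm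
      _ ≤ K ^ 2 := Nat.pow_le_pow_right hK1 (by norm_num)
  | m + 3 =>
    have h := Finset.small_nsmul_of_small_tripling (A := S) (K := (K : ℝ)) (m := m + 3)
      (by omega)
      (by
        have h4 : ((ks 3 S).card : ℝ) ≤ (K : ℝ) * (S.card : ℝ) := by
          rw [h3]
          exact_mod_cast hK
        rw [ks_eq_nsmul] at h4
        exact h4) hS
    have h5 : ((ks (m + 3) S).card : ℝ) ≤ (K : ℝ) ^ (m + 3 - 2) * (S.card : ℝ) := by
      rw [ks_eq_nsmul]
      exact h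
    have h6 : (ks (m + 3) S).card ≤ K ^ (m + 3 - 2) * S.card := by exact_mod_cast h5
    exact h6.trans (Nat.mul_le_mul_right _ (Nat.pow_le_pow_right hK1 (by omega)))

theorem ks_insert (S : Finset Γ) (m : ℕ) :
    ks m (insert 0 S) ⊆ (Finset.range (m + 1)).biUnion fun i => ks i S := by
  induction m with
  | zero =>
    intro x hx
    rw [mem_biUnion]
    exact ⟨0, by simp, hx⟩
  | succ m ih =>
    intro x hx
    rw [ks_succ, mem_add] at hx
    obtain ⟨y, hy, z, hz, rfl⟩ := hx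
    obtain ⟨i, hi, hyi⟩ := mem_biUnion.1 (ih hy)
    rw [mem_range] at hi
    rw [mem_biUnion]
    rcases mem_insert.1 hz with rfl | hz
    · exact ⟨i, mem_range.2 (by omega), by rw [add_zero]; exact hyi⟩
    · exact ⟨i + 1, mem_range.2 (by omega), Finset.add_mem_add hyi hz⟩

theorem card_ks_T {S : Finset Γ} (hne : S.Nonempty) (hS : -S = S) {K : ℕ} (hK1 : 1 ≤ K)
    (hK : (S + S + S).card ≤ K * S.card) (m : ℕ) :
    (ks m (insert 0 S)).card ≤ (2 * K) ^ m * S.card := by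
  have h1 := (card_le_card (ks_insert S m)).trans card_biUnion_le
  have h2 : ∑ i ∈ Finset.range (m + 1), (ks i S).card ≤ (m + 1) * (ks m S).card := by
    have := Finset.sum_le_card_nsmul (Finset.range (m + 1)) (fun i => (ks i S).card)
      (ks m S).card (fun i hi => card_ks_le hne (by rw [mem_range] at hi; omega))
    rwa [card_range, smul_eq_mul] at this
  refine h1.trans (h2.trans ?_)
  calc (m + 1) * (ks m S).card ≤ 2 ^ m * (K ^ m * S.card) :=
        Nat.mul_le_mul Nat.lt_two_pow_self (card_ks_S hne hS hK1 hK m)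
    _ = (2 * K) ^ m * S.card := by rw [mul_pow, mul_assoc]

end ks

section nrm

variable {Γ : Type} [AddCommGroup Γ] [DecidableEq Γ]

theorem nrm_mono (A : Finset Γ) {R R' : Finset Γ} (h : R ⊆ R') (a : Γ) :
    nrm A R a ≤ nrm A R' a :=
  card_le_card (filter_subset_filter _ h)

theorem nrm_zero (A R : Finset Γ) : nrm A R 0 = 0 := by
  unfold nrm
  rw [card_eq_zero, filter_eq_empty_iff]
  intro t _ h
  exact h (by rw [sub_zero])

theorem nrm_add (A : Finset Γ) {R R' : Finset Γ} (a b : Γ) (h : ∀ t ∈ R, t - a ∈ R') :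
    nrm A R (a + b) ≤ nrm A R a + nrm A R' b := by
  unfold nrm
  have h1 : (R.filter fun t => ¬ (t ∈ A ↔ t - (a + b) ∈ A)) ⊆
      (R.filter fun t => ¬ (t ∈ A ↔ t - a ∈ A)) ∪
        (R.filter fun t => ¬ (t - a ∈ A ↔ t - a - b ∈ A)) := by
    intro t ht
    rw [mem_filter] at ht
    rw [mem_union, mem_filter, mem_filter]
    by_cases h2 : (t ∈ A ↔ t - a ∈ A)
    · right
      refine ⟨ht.1, fun h3 => ht.2 ?_⟩
      rw [← sub_sub]
      exact h2.trans h3
    · left
      exact ⟨ht.1, h2⟩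
  refine (card_le_card h1).trans ((card_union_le _ _).trans (Nat.add_le_add_left ?_ _))
  refine Finset.card_le_card_of_injOn (fun t => t - a) ?_ ?_
  · intro t ht
    rw [mem_coe, mem_filter] at ht
    rw [mem_coe, mem_filter]
    exact ⟨h t ht.1, ht.2⟩
  · intro x _ y _ hxy
    exact sub_left_injective hxy

theorem nrm_neg (A : Finset Γ) {R R' : Finset Γ} (b : Γ) (h : ∀ t ∈ R, t + b ∈ R') :
    nrm A R (-b) ≤ nrm A R' b := by
  unfold nrm
  refine Finset.card_le_card_of_injOn (fun t => t + b) ?_ ?_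
  · intro t ht
    rw [mem_coe, mem_filter] at ht
    rw [mem_coe, mem_filter]
    refine ⟨h t ht.1, fun h3 => ht.2 ?_⟩
    rw [add_sub_cancel_right] at h3
    rw [sub_neg_eq_add]
    exact h3.symm
  · intro x _ y _ hxy
    exact add_left_injective b hxy

theorem nrm_sub (A T : Finset Γ) (h0 : 0 ∈ T) (hT : -T = T) (j s : ℕ) (a b : Γ)
    (ha : a ∈ ks s T) (hb : b ∈ ks s T) :
    nrm A (ks j T) (a - b) ≤ nrm A (ks (j + 2 * s) T) a + nrm A (ks (j + 2 * s) T) b := by
  have h1 : ∀ t ∈ ks j T, t - a ∈ ks (j + s) T := by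
    intro t ht
    rw [sub_eq_add_neg, ks_add]
    exact Finset.add_mem_add ht (ks_neg hT ha)
  have h2 : ∀ t ∈ ks (j + s) T, t + b ∈ ks (j + 2 * s) T := by
    intro t ht
    have h3 : j + 2 * s = (j + s) + s := by ring
    rw [h3, ks_add]
    exact Finset.add_mem_add ht hb
  rw [sub_eq_add_neg]
  exact (nrm_add A a (-b) h1).trans (Nat.add_le_add
    (nrm_mono A (ks_mono h0 (by omega)) a) (nrm_neg A b h2))

theorem nrm_ks (A T E : Finset Γ) (h0 : 0 ∈ T) (hT : -T = T) (j k s q n : ℕ)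
    (hE : ∀ e ∈ E, e ∈ ks s T ∧ q * nrm A (ks (j + s * k) T) e ≤ n) (h : Γ)
    (hh : h ∈ ks k E) : q * nrm A (ks j T) h ≤ k * n := by
  induction k generalizing j h with
  | zero =>
    rw [ks_zero, mem_singleton] at hh
    rw [hh, nrm_zero, mul_zero]
    exact Nat.zero_le _
  | succ k ih =>
    rw [ks_succ, mem_add] at hh
    obtain ⟨h', hh', e, he, rfl⟩ := hh
    have h1 : ∀ t ∈ ks j T, t - e ∈ ks (j + s) T := by
      intro t ht
      rw [sub_eq_add_neg, ks_add]
      exact Finset.add_mem_add ht (ks_neg hT (hE e he).1)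
    have h2 := nrm_add A e h' h1
    have h3 := ih (j + s) (fun e' he' => by
      have h4 := hE e' he'
      have h5 : j + s * (k + 1) = j + s + s * k := by ring
      rw [h5] at h4
      exact h4) h' hh'
    have h6 : q * nrm A (ks j T) e ≤ n :=
      (Nat.mul_le_mul_left q (nrm_mono A (ks_mono h0 (Nat.le_add_right _ _)) e)).trans
        (hE e he).2
    rw [add_comm h' e]
    calc q * nrm A (ks j T) (e + h') ≤ q * (nrm A (ks j T) e + nrm A (ks (j + s) T) h') :=
          Nat.mul_le_mul_left q h2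
      _ = q * nrm A (ks j T) e + q * nrm A (ks (j + s) T) h' := mul_add _ _ _
      _ ≤ n + k * n := Nat.add_le_add h6 h3
      _ = (k + 1) * n := by ring

end nrm

section scale

variable {Γ : Type} [AddCommGroup Γ] [DecidableEq Γ]

/-- the elements of `ks 2 T`, `T = S ∪ {0}`, which nearly preserve `A` on `ks j T` -/
def lev (A S : Finset Γ) (q j : ℕ) : Finset Γ :=
  (ks 2 (insert 0 S)).filter fun a => q * nrm A (ks j (insert 0 S)) a ≤ S.card

theorem mem_lev {A S : Finset Γ} {q j : ℕ} {a : Γ} :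
    a ∈ lev A S q j ↔ a ∈ ks 2 (insert 0 S) ∧ q * nrm A (ks j (insert 0 S)) a ≤ S.card := by
  unfold lev
  rw [mem_filter]

theorem zero_mem_lev (A S : Finset Γ) (q j : ℕ) : (0 : Γ) ∈ lev A S q j := by
  rw [mem_lev, nrm_zero, mul_zero]
  exact ⟨zero_mem_ks (mem_insert_self 0 S) 2, Nat.zero_le _⟩

theorem neg_T {S : Finset Γ} (hS : -S = S) : -(insert 0 S) = insert 0 S := by
  rw [Finset.neg_insert, neg_zero, hS]

theorem step1 (A : Finset Γ) {S : Finset Γ} (hne : S.Nonempty) (hS : -S = S) {K : ℕ}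
    (hK1 : 1 ≤ K) (hK : (S + S + S).card ≤ K * S.card) (q j : ℕ) :
    (ks 4 (lev A S (8 * q) (j + 24))).card ≤ (2 * K) ^ 9 * (lev A S q j).card := by
  obtain ⟨T, hTd⟩ : ∃ T : Finset Γ, T = insert 0 S := ⟨_, rfl⟩
  have h0 : (0 : Γ) ∈ T := by rw [hTd]; exact mem_insert_self 0 S
  have hT : -T = T := by rw [hTd]; exact neg_T hS
  obtain ⟨E, hE⟩ : ∃ E : Finset Γ, E = lev A S (8 * q) (j + 24) := ⟨_, rfl⟩
  rw [← hE]
  have hE1 : ∀ e ∈ E, e ∈ ks 2 T ∧ 8 * q * nrm A (ks (j + 24) T) e ≤ S.card := by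
    intro e he
    rw [hE, mem_lev, ← hTd] at he
    exact he
  have hE2 : E ⊆ ks 2 T := fun a ha => (hE1 a ha).1
  have hH : ks 4 E ⊆ ks 8 T := ks_sub hE2 4
  have hcard : ((ks 4 E + T).card : ℝ) ≤ (((2 * K) ^ 9 : ℕ) : ℝ) * T.card := by
    have h1 : ks 4 E + T ⊆ ks 9 T := by
      show ks 4 E + T ⊆ ks 8 T + T
      exact Finset.add_subset_add hH Subset.rfl
    have h2 := (card_le_card h1).trans
      (by rw [hTd]; exact card_ks_T hne hS hK1 hK 9 : (ks 9 T).card ≤ (2 * K) ^ 9 * S.card)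
    have h3 : S.card ≤ T.card := by rw [hTd]; exact card_le_card (subset_insert _ _)
    exact_mod_cast h2.trans (Nat.mul_le_mul_left _ h3)
  obtain ⟨F, hF, hFc, hcov⟩ := Finset.ruzsa_covering_add ⟨0, h0⟩ hcard
  have hFc' : F.card ≤ (2 * K) ^ 9 := by exact_mod_cast hFc
  have hsub : ks 4 E ⊆ F + lev A S q j := by
    intro a ha
    obtain ⟨y, hy, z, hz, rfl⟩ := mem_add.1 (hcov ha)
    refine Finset.add_mem_add hy ?_
    rw [mem_lev, ← hTd]
    have h5 := nrm_sub A T h0 hT j 8 (y + z) y (hH ha) (hH (hF hy))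
    rw [add_sub_cancel_left] at h5
    have h6 := nrm_ks A T E h0 hT (j + 16) 4 2 (8 * q) S.card hE1
    have h7 := h6 (y + z) ha
    have h8 := h6 y (hF hy)
    refine ⟨?_, ?_⟩
    · obtain ⟨t, ht, t', ht', rfl⟩ := mem_sub.1 hz
      show t - t' ∈ ks 1 T + T
      rw [ks_one, sub_eq_add_neg]
      refine Finset.add_mem_add ht ?_
      rw [← hT, Finset.mem_neg']
      simpa using ht'
    · have h9 : 8 * q * nrm A (ks j T) z ≤ 8 * q * (nrm A (ks (j + 2 * 8) T) (y + z) +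
          nrm A (ks (j + 2 * 8) T) y) := Nat.mul_le_mul_left _ h5
      have h10 : j + 2 * 8 = j + 16 := by ring
      rw [h10, mul_add] at h9
      have h11 : 8 * (q * nrm A (ks j T) z) ≤ 8 * S.card := by
        calc 8 * (q * nrm A (ks j T) z) = 8 * q * nrm A (ks j T) z := by ring
          _ ≤ _ := h9
          _ ≤ 4 * S.card + 4 * S.card := Nat.add_le_add h7 h8
          _ = 8 * S.card := by ring
      omega
  calc (ks 4 E).card ≤ (F + lev A S q j).card := card_le_card hsub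
    _ ≤ F.card * (lev A S q j).card := Finset.card_add_le
    _ ≤ (2 * K) ^ 9 * (lev A S q j).card := Nat.mul_le_mul_right _ hFc'

theorem sep {A S : Finset Γ} (hne : S.Nonempty) (hS : -S = S) {K : ℕ} (hK1 : 1 ≤ K)
    (hK : (S + S + S).card ≤ K * S.card) {q j : ℕ} {u v : Γ} (hu : u ∈ S) (hv : v ∈ S)
    (h : v - u ∉ lev A S q j) :
    (ks (j + 1) (insert 0 S)).card ≤ (2 * K) ^ (j + 1) * q *
      ((ks (j + 1) (insert 0 S)).filter fun z => ¬ (z - u ∈ A ↔ z - v ∈ A)).card := by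
  obtain ⟨T, hTd⟩ : ∃ T : Finset Γ, T = insert 0 S := ⟨_, rfl⟩
  have h0 : (0 : Γ) ∈ T := by rw [hTd]; exact mem_insert_self 0 S
  have hT : -T = T := by rw [hTd]; exact neg_T hS
  have hST : S ⊆ T := by rw [hTd]; exact subset_insert _ _
  have hc := card_ks_T hne hS hK1 hK (j + 1)
  rw [mem_lev] at h
  rw [← hTd] at h hc ⊢
  have h2 : v - u ∈ ks 2 T := by
    show v - u ∈ ks 1 T + T
    rw [ks_one, sub_eq_add_neg]
    refine Finset.add_mem_add (hST hv) ?_
    rw [← hT, Finset.mem_neg']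
    simpa using hST hu
  have h3 : S.card < q * nrm A (ks j T) (v - u) := by
    by_contra h4
    exact h ⟨h2, not_lt.1 h4⟩
  have h4 : nrm A (ks j T) (v - u) ≤
      ((ks (j + 1) T).filter fun z => ¬ (z - u ∈ A ↔ z - v ∈ A)).card := by
    unfold nrm
    refine Finset.card_le_card_of_injOn (fun t => t + u) ?_ ?_
    · intro t ht
      rw [mem_coe, mem_filter] at ht
      rw [mem_coe, mem_filter]
      refine ⟨Finset.add_mem_add ht.1 (hST hu), fun h5 => ht.2 ?_⟩
      have e1 : t + u - u = t := add_sub_cancel_right t u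
      have e2 : t + u - v = t - (v - u) := by abel
      rw [e1, e2] at h5
      exact h5
    · intro x _ y _ hxy
      exact add_left_injective u hxy
  calc (ks (j + 1) T).card ≤ (2 * K) ^ (j + 1) * S.card := hc
    _ ≤ (2 * K) ^ (j + 1) * (q * nrm A (ks j T) (v - u)) := Nat.mul_le_mul_left _ h3.le
    _ = (2 * K) ^ (j + 1) * q * nrm A (ks j T) (v - u) := (mul_assoc _ _ _).symm
    _ ≤ _ := Nat.mul_le_mul_left _ h4

theorem step2 {A S : Finset Γ} (hne : S.Nonempty) (hS : -S = S) {K : ℕ} (hK1 : 1 ≤ K)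
    (hK : (S + S + S).card ≤ K * S.card) {C d : ℕ} (hP : Pack C d A) {q : ℕ} (hq : 1 ≤ q)
    (j : ℕ) : ∃ U : Finset Γ, U.card ≤ C * ((2 * K) ^ (j + 1) * q) ^ d ∧
      ∀ s ∈ S, ∃ u ∈ U, s - u ∈ lev A S q j := by
  classical
  obtain ⟨E, hE⟩ : ∃ E : Finset Γ, E = lev A S q j := ⟨_, rfl⟩
  have h0E : (0 : Γ) ∈ E := by rw [hE]; exact zero_mem_lev A S q j
  obtain ⟨U, hU, hmax⟩ := exists_max_image
    (S.powerset.filter fun U => ∀ u ∈ U, ∀ v ∈ U, u ≠ v → ¬ (u - v ∈ E ∧ v - u ∈ E)) card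
    ⟨∅, by simp⟩
  rw [mem_filter, mem_powerset] at hU
  refine ⟨U, ?_, ?_⟩
  · refine hP (ks (j + 1) (insert 0 S)) U ((2 * K) ^ (j + 1) * q) ?_
      ⟨0, zero_mem_ks (mem_insert_self 0 S) _⟩ ?_
    · exact Nat.mul_pos (pow_pos (by omega) _) hq
    · intro u hu v hv huv
      by_cases h1 : v - u ∈ E
      · have h2 : u - v ∉ E := fun h3 => hU.2 u hu v hv huv ⟨h3, h1⟩
        rw [hE] at h2
        have h3 := sep hne hS hK1 hK (hU.1 hv) (hU.1 hu) h2
        have h4 : ((ks (j + 1) (insert 0 S)).filter fun z => ¬ (z - v ∈ A ↔ z - u ∈ A)) =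
            (ks (j + 1) (insert 0 S)).filter fun z => ¬ (z - u ∈ A ↔ z - v ∈ A) :=
          filter_congr fun z _ => not_congr ⟨fun h => h.symm, fun h => h.symm⟩
        rw [h4] at h3
        exact h3
      · rw [hE] at h1
        exact sep hne hS hK1 hK (hU.1 hu) (hU.1 hv) h1
  · intro s hs
    by_contra hcon
    have hcon' : ∀ u ∈ U, s - u ∉ E := by
      intro u hu h
      rw [hE] at h
      exact hcon ⟨u, hu, h⟩
    have hsU : s ∉ U := by
      intro h
      apply hcon' s h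
      rw [sub_self]
      exact h0E
    have h1 : insert s U ∈ S.powerset.filter fun U =>
        ∀ u ∈ U, ∀ v ∈ U, u ≠ v → ¬ (u - v ∈ E ∧ v - u ∈ E) := by
      rw [mem_filter, mem_powerset]
      refine ⟨insert_subset hs hU.1, ?_⟩
      intro u hu v hv huv
      rcases mem_insert.1 hu with hu' | hu'
      · rcases mem_insert.1 hv with hv' | hv'
        · exact absurd (hu'.trans hv'.symm) huv
        · intro h
          rw [hu'] at h
          exact hcon' v hv' h.1
      · rcases mem_insert.1 hv with hv' | hv'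
        · intro h
          rw [hv'] at h
          exact hcon' u hu' h.2
        · exact hU.2 u hu' v hv' huv
    have h2 := hmax _ h1
    rw [card_insert_of_notMem hsU] at h2
    omega

theorem card_le_mul {S U E : Finset Γ} (h : ∀ s ∈ S, ∃ u ∈ U, s - u ∈ E) :
    S.card ≤ U.card * E.card := by
  refine (card_le_card (fun s hs => ?_ : S ⊆ U + E)).trans Finset.card_add_le
  obtain ⟨u, hu, h1⟩ := h s hs
  have := Finset.add_mem_add hu h1
  rwa [add_sub_cancel] at this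

end scale

theorem good_scale (C d K : ℕ) : ∃ K₁ : ℕ, ∀ q₀ j₀ : ℕ, 1 ≤ q₀ → ∃ L : ℕ,
    ∀ (Γ : Type) [AddCommGroup Γ] [DecidableEq Γ] (A S : Finset Γ), S.Nonempty → -S = S →
      (S + S + S).card ≤ K * S.card → Pack C d A →
      ∃ q j : ℕ, q₀ ≤ q ∧ j₀ ≤ j ∧ ∃ E : Finset Γ,
        (∀ a, a ∈ E ↔ a ∈ ks 2 (insert 0 S) ∧ q * nrm A (ks j (insert 0 S)) a ≤ S.card) ∧
        (ks 4 E).card ≤ K₁ * E.card ∧
        ∃ Y : Finset Γ, Y.card ≤ L ∧ ∀ s ∈ S, ∃ y ∈ Y, s - y ∈ E := by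
  obtain ⟨B, hB⟩ : ∃ B : ℕ, B = (8 * (2 * K) ^ 24) ^ d := ⟨_, rfl⟩
  refine ⟨2 * B * (2 * K) ^ 9, fun q₀ j₀ hq₀ => ?_⟩
  obtain ⟨M, hM⟩ : ∃ M : ℕ, M = C * ((2 * K) ^ (j₀ + 1) * q₀) ^ d := ⟨_, rfl⟩
  obtain ⟨n, hn⟩ : ∃ n : ℕ, n = (2 * K) ^ 2 * M := ⟨_, rfl⟩
  refine ⟨M * B ^ n, fun Γ _ _ A S hne hS hK hP => ?_⟩
  have hSc : 1 ≤ S.card := hne.card_pos
  have hK1 : 1 ≤ K := by
    by_contra h
    have h1 : K = 0 := by omega
    rw [h1, zero_mul, Nat.le_zero, card_eq_zero] at hK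
    have h2 : (S + S + S).Nonempty := (hne.add hne).add hne
    rw [hK] at h2
    exact Finset.not_nonempty_empty h2
  have hB1 : 1 ≤ B := by
    rw [hB]
    exact Nat.one_le_pow _ _ (Nat.mul_pos (by norm_num) (pow_pos (by omega) _))
  have hMi : ∀ i : ℕ, C * ((2 * K) ^ (j₀ + 24 * i + 1) * (q₀ * 8 ^ i)) ^ d = M * B ^ i := by
    intro i
    have h1 : (2 * K) ^ (j₀ + 24 * i + 1) * (q₀ * 8 ^ i) =
        ((2 * K) ^ (j₀ + 1) * q₀) * (8 * (2 * K) ^ 24) ^ i := by
      generalize 2 * K = x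
      ring
    rw [h1, hM, hB]
    generalize (2 * K) ^ (j₀ + 1) * q₀ = y
    generalize 8 * (2 * K) ^ 24 = z
    rw [mul_pow, ← pow_mul, ← pow_mul, mul_comm i d, mul_assoc]
  have hex : ∃ i, 1 ≤ i ∧ i ≤ n ∧ (ks 4 (lev A S (q₀ * 8 ^ i) (j₀ + 24 * i))).card ≤
      2 * B * (2 * K) ^ 9 * (lev A S (q₀ * 8 ^ i) (j₀ + 24 * i)).card := by
    by_contra hno
    have hno' : ∀ i, 1 ≤ i → i ≤ n →
        2 * B * (2 * K) ^ 9 * (lev A S (q₀ * 8 ^ i) (j₀ + 24 * i)).card <
          (ks 4 (lev A S (q₀ * 8 ^ i) (j₀ + 24 * i))).card := by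
      intro i h1 h2
      by_contra h3
      exact hno ⟨i, h1, h2, not_lt.1 h3⟩
    have hdec : ∀ i, i ≤ n → (2 * B) ^ i * (lev A S (q₀ * 8 ^ i) (j₀ + 24 * i)).card ≤
        (lev A S (q₀ * 8 ^ 0) (j₀ + 24 * 0)).card := by
      intro i
      induction i with
      | zero => intro _; rw [pow_zero, one_mul]
      | succ i ih =>
        intro hi
        have h1 := hno' (i + 1) (by omega) hi
        have h2 := step1 A hne hS hK1 hK (q₀ * 8 ^ i) (j₀ + 24 * i)
        have e1 : 8 * (q₀ * 8 ^ i) = q₀ * 8 ^ (i + 1) := by ring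
        have e2 : j₀ + 24 * i + 24 = j₀ + 24 * (i + 1) := by ring
        rw [e1, e2] at h2
        have h3 := h1.trans_le h2
        have h4 : 2 * B * (lev A S (q₀ * 8 ^ (i + 1)) (j₀ + 24 * (i + 1))).card ≤
            (lev A S (q₀ * 8 ^ i) (j₀ + 24 * i)).card := by
          have h5 : (2 * K) ^ 9 * (2 * B *
              (lev A S (q₀ * 8 ^ (i + 1)) (j₀ + 24 * (i + 1))).card) ≤
              (2 * K) ^ 9 * (lev A S (q₀ * 8 ^ i) (j₀ + 24 * i)).card := by
            refine le_trans (le_of_eq ?_) h3.le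
            ring
          exact Nat.le_of_mul_le_mul_left h5 (pow_pos (by omega) _)
        calc (2 * B) ^ (i + 1) * (lev A S (q₀ * 8 ^ (i + 1)) (j₀ + 24 * (i + 1))).card
            = (2 * B) ^ i * (2 * B *
                (lev A S (q₀ * 8 ^ (i + 1)) (j₀ + 24 * (i + 1))).card) := by
              rw [pow_succ, mul_assoc]
          _ ≤ (2 * B) ^ i * (lev A S (q₀ * 8 ^ i) (j₀ + 24 * i)).card :=
              Nat.mul_le_mul_left _ h4
          _ ≤ _ := ih (by omega)
    have h1 := hdec n le_rfl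
    obtain ⟨U, hU1, hU2⟩ := step2 hne hS hK1 hK hP (q := q₀ * 8 ^ n)
      (Nat.mul_pos hq₀ (pow_pos (by norm_num) _)) (j₀ + 24 * n)
    rw [hMi n] at hU1
    have h2 := card_le_mul hU2
    have h3 : (lev A S (q₀ * 8 ^ 0) (j₀ + 24 * 0)).card ≤ (2 * K) ^ 2 * S.card :=
      (card_le_card (fun a ha => (mem_lev.1 ha).1)).trans (card_ks_T hne hS hK1 hK 2)
    obtain ⟨c, hc⟩ : ∃ c : ℕ, c = (lev A S (q₀ * 8 ^ n) (j₀ + 24 * n)).card := ⟨_, rfl⟩
    rw [← hc] at h1 h2
    have hc0 : 0 < c := by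
      rw [hc]
      exact card_pos.2 ⟨0, zero_mem_lev A S _ _⟩
    have h4 : 2 ^ n * (B ^ n * c) ≤ n * (B ^ n * c) := by
      calc 2 ^ n * (B ^ n * c) = (2 * B) ^ n * c := by rw [mul_pow, mul_assoc]
        _ ≤ (2 * K) ^ 2 * S.card := h1.trans h3
        _ ≤ (2 * K) ^ 2 * (M * B ^ n * c) :=
          Nat.mul_le_mul_left _ (h2.trans (Nat.mul_le_mul_right _ hU1))
        _ = n * (B ^ n * c) := by
          rw [hn]
          ring
    have h5 : 2 ^ n ≤ n :=
      Nat.le_of_mul_le_mul_right h4 (Nat.mul_pos (pow_pos (by omega) _) hc0)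
    exact absurd h5 (not_le.2 Nat.lt_two_pow_self)
  obtain ⟨i, hi1, hin, hi⟩ := hex
  obtain ⟨U, hU1, hU2⟩ := step2 hne hS hK1 hK hP (q := q₀ * 8 ^ i)
    (Nat.mul_pos hq₀ (pow_pos (by norm_num) _)) (j₀ + 24 * i)
  rw [hMi i] at hU1
  refine ⟨q₀ * 8 ^ i, j₀ + 24 * i, Nat.le_mul_of_pos_right _ (pow_pos (by norm_num) _),
    Nat.le_add_right _ _, lev A S (q₀ * 8 ^ i) (j₀ + 24 * i), fun a => mem_lev, hi, U, ?_, hU2⟩
  exact hU1.trans (Nat.mul_le_mul_left _ (Nat.pow_le_pow_right hB1 hin))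

end Pool.Agent.TH391.CG
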